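import Pool.Agent.H7.HD.Targets11
import Pool.Agent.H3.HD.VA

/-!
# (UQ) uniqueness of the minimal pair (MP_e37c09_lc)
-/

open Ordinal Cardinal Order Set
open scoped ZFSet

universe u

namespace Pool.Agent.H69.HDA.UQ

open _root_.HD

theorem X : T_UQ.{u} := by
  intro en _ t X ν T g T' g' hν h1 h2
  intro hp
  refine null_union Pool.Agent.H3.HD.VA.X hν (h2.2 T g h1.1) (h1.2 T' g' h2.1)
    (hp.mono fun b _ hb _ => ?_)
  obtain ⟨hT, h3⟩ := hb
  by_cases hT' : b ∈ T'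
  · have hne : g b ≠ g' b := h3.resolve_left (fun h => h hT')
    rcases lt_or_gt_of_ne hne with h | h
    · exact Or.inl ⟨hT, Or.inr h⟩
    · exact Or.inr ⟨hT', Or.inr h⟩
  · exact Or.inl ⟨hT, Or.inl hT'⟩

end Pool.Agent.H69.HDA.UQ
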