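import Pool.Agent.H7.HD.Targets11
import Pool.Agent.H3.HD.DM

/-!
# (WH) the filter is in HOD (MP_e37c09_lc)
-/

open Ordinal Cardinal Order Set
open scoped ZFSet

universe u

namespace Pool.Agent.H69.HDA.WH

open _root_.HD

/-- the value of a definable pairing in a set with a fixed code -/
theorem do_t {en : Ordinal.{u} → ZFSet.{u}} (hen : EN en)
    {t : Ordinal.{u} → Ordinal.{u} → Ordinal.{u}} (ht : Prf t) (c : Ordinal.{u}) (i j : ℕ) :
    DO fun w => t (w i) (w j) ∈ E en c := by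
  have hE := (t_EA en hen).1
  have h1 : DO fun w => w 0 ∈ E en c :=
    DO.sub c (R := fun c w => w 0 ∈ E en c) (hE.s2 (X := fun x y => x ∈ E en y) 1 0)
  have h2 : DO fun w => ∃ y, y = t (w i) (w j) ∧ y ∈ E en c :=
    DO.ex (R := fun y w => y = t (w i) (w j) ∧ y ∈ E en c)
      ((ht.dfn.s3 (X := fun a b y => y = t a b) (i + 1) (j + 1) 0).and h1)
  exact h2.congr fun w => by simp

theorem X (hLD : T_LD.{u}) (hUQ : T_UQ.{u}) : T_WH.{u} := by
  intro en hen t X ν T g c ht hX hν hL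
  have hVA : T_VA.{u} := Pool.Agent.H3.HD.VA.X
  have hE := (t_EA en hen).1
  -- the definable form
  have h1 : DO fun w => ∃ (T' : Set Ordinal.{u}) (g' : Ordinal.{u} → Ordinal.{u}),
      LM en t X ν T' g' ∧ Pos om ν {γ | γ ∈ T' ∧ (t γ (g' γ) ∈ E en c ∧ g' γ ∉ E en (w 0))} := by
    refine DO.sub ν (R := fun n w => ∃ (T' : Set Ordinal.{u}) (g' : Ordinal.{u} → Ordinal.{u}),
      LM en t X n T' g' ∧ Pos om n {γ | γ ∈ T' ∧ (t γ (g' γ) ∈ E en c ∧ g' γ ∉ E en (w 0))}) ?_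
    refine hLD en hen t X ht hX (fun γ x w => t γ x ∈ E en c ∧ x ∉ E en (w 1)) ?_ 0
    exact (do_t hen ht c 0 1).and (hE.s2 (X := fun x y => x ∈ E en y) 1 3).not
  have key : ∀ d, Pos om ν {γ | γ ∈ T ∧ t γ (g γ) ∈ E en c ∧ g γ ∉ E en d} ↔
      ∃ (T' : Set Ordinal.{u}) (g' : Ordinal.{u} → Ordinal.{u}),
      LM en t X ν T' g' ∧ Pos om ν {γ | γ ∈ T' ∧ (t γ (g' γ) ∈ E en c ∧ g' γ ∉ E en d)} := by
    intro d
    constructor
    · intro h
      exact ⟨T, g, hL, h⟩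
    · rintro ⟨T', g', hL', h⟩
      have h2 := hUQ en hen t X ν T' g' T g hν hL' hL
      refine (pos_diff hVA hν h h2).mono fun γ _ hγ _ => ?_
      obtain ⟨⟨h3, h4, h5⟩, h6⟩ := hγ
      have h7 : γ ∈ T ∧ g' γ = g γ := by
        by_contra h7
        refine h6 ⟨h3, ?_⟩
        by_cases h8 : γ ∈ T
        · exact Or.inr fun h9 => h7 ⟨h8, h9⟩
        · exact Or.inl h8
      refine ⟨h7.1, ?_, ?_⟩
      · rw [← h7.2]
        exact h4
      · rw [← h7.2]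
        exact h5
  have h2 : DO fun w => ¬ Pos om ν {γ | γ ∈ T ∧ t γ (g γ) ∈ E en c ∧ g γ ∉ E en (w 0)} :=
    (h1.congr fun w => key (w 0)).not
  obtain ⟨Q, hQ, hQ'⟩ := h2
  have hmem : ∀ x, x ∈ wz en ν T g t c ↔ x ⊆ ν.toZFSet ∧ HOD x ∧
      ¬ Pos om ν {γ | γ ∈ T ∧ t γ (g γ) ∈ E en c ∧ (g γ).toZFSet ∉ x} := by
    intro x
    unfold wz
    rw [ZFSet.mem_sep, ZFSet.mem_powerset]
  refine hod_iff.2 ⟨?_, fun y hy => ((hmem y).1 hy).2.1⟩
  refine OD.of_mem (P := fun v => v 0 ⊆ ν.toZFSet ∧ HOD (v 0) ∧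
    ∃ z, (z.IsOrdinal ∧ v 0 = en z.rank) ∧ Q (fun _ => z)) ?_ fun v => ?_
  · refine DZ.and (DZ.od (R := fun a v => v 0 ⊆ a) (OD.ordinal ν) (Loc.sub 1 0).dz) ?_
    refine DZ.and (Pool.Agent.H3.HD.DM.dz_hod 0) ?_
    refine DZ.ex (R := fun z v => (z.IsOrdinal ∧ v 0 = en z.rank) ∧ Q (fun _ => z)) ?_
    exact (hen.dz).and (hQ.ren fun _ => 0)
  · rw [hmem]
    refine and_congr_right fun _ => and_congr_right fun hod => ?_
    constructor
    · rintro ⟨z, ⟨hz, h2⟩, h3⟩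
      have h4 : z = z.rank.toZFSet := hz.toZFSet_rank_eq.symm
      rw [h4] at h3
      have h5 := (hQ' (fun _ => z.rank)).2 h3
      rw [h2]
      exact h5
    · intro h3
      obtain ⟨c', hc'⟩ := (hen.od _).1 hod.od
      refine ⟨c'.toZFSet, ⟨ZFSet.isOrdinal_toZFSet c', by rw [rank_toZFSet, hc']⟩, ?_⟩
      refine (hQ' (fun _ => c')).1 ?_
      rw [← hc'] at h3
      exact h3

end Pool.Agent.H69.HDA.WH
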